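import Pool.Agent.WAP.StmtsL

set_option autoImplicit false

namespace Pool.Agent.WAP.H89

open Classical Polynomial WeierstrassCurve.Affine

lemma smLam {F : Type} [Field F] [Algebra GaussianInt F] {d : F} (P : Pt d) :
    sm lam P = P + iPt P := by
  rw [sm_def]
  show (1 : ℤ) • P + (1 : ℤ) • iPt P = P + iPt P
  rw [one_smul, one_smul]

theorem lmf : LmfStmt := by
  intro F _ _ d h2 hd X Y h
  have hι : (ii F) ^ 2 = -1 := ii_sq
  have hι0 : ii F ≠ 0 := by
    intro h0
    rw [h0] at hι
    have h3 : (0 : F) = -1 := by rw [← hι]; ring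
    have h4 : (1 : F) = 0 := by linear_combination h3
    exact one_ne_zero h4
  have heq : Y ^ 2 = X ^ 3 - d ^ 2 * X := (W_nonsingular d X Y h2 hd).mp h
  refine ⟨?_, ?_⟩
  · intro hX
    have hY : Y = 0 := by
      have h3 : Y ^ 2 = 0 := by rw [heq, hX]; ring
      exact pow_eq_zero_iff (two_ne_zero) |>.mp h3
    rw [smLam]
    unfold iPt
    simp only [Jf]
    refine Point.add_of_Y_eq ?_ ?_
    · rw [hX, neg_zero]
    · rw [W_negY, hY]
      ring
  · intro hX
    have hne : ¬ (X = -X ∧ Y = (W d).negY (-X) (ii F * Y)) := by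
      rintro ⟨h3, _⟩
      have h4 : 2 * X = 0 := by linear_combination h3
      rcases mul_eq_zero.mp h4 with h5 | h5
      · exact h2 h5
      · exact hX h5
    have hXne : X ≠ -X := by
      intro h3
      have h4 : 2 * X = 0 := by linear_combination h3
      rcases mul_eq_zero.mp h4 with h5 | h5
      · exact h2 h5
      · exact hX h5
    have hJ : (W d).Nonsingular (-X) (ii F * Y) := by
      rw [W_nonsingular _ _ _ h2 hd]
      linear_combination Y ^ 2 * hι - heq
    have key : ∃ (X' Y' : F) (h' : (W d).Nonsingular X' Y'),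
        sm lam (Point.some X Y h : Pt d) = Point.some X' Y' h' ∧
          X' = (X ^ 2 - d ^ 2) / (2 * ii F * X) := by
      rw [smLam]
      unfold iPt
      simp only [Jf]
      refine ⟨_, _, nonsingular_add h hJ hne, Point.add_some hne, ?_⟩
      rw [W_addX, slope_of_X_ne hXne]
      have h5 : X - -X = 2 * X := by ring
      rw [h5]
      have h6 : (2 : F) * X ≠ 0 := mul_ne_zero h2 hX
      rw [eq_div_iff (mul_ne_zero (mul_ne_zero h2 hι0) hX), div_pow, sub_neg_eq_add,
        sub_add_cancel, div_mul_eq_mul_div, div_eq_iff (pow_ne_zero 2 h6)]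
      linear_combination (2 * ii F * X * (1 - ii F) ^ 2) * heq +
        (2 * X * (X ^ 3 - d ^ 2 * X) * (ii F - 2)) * hι
    obtain ⟨X', Y', h', h3, rfl⟩ := key
    exact ⟨Y', h', h3⟩

end Pool.Agent.WAP.H89
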