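import Pool.Agent.WAP.StmtsC
import Pool.Agent.Helper89_WAP.LMF

set_option autoImplicit false

namespace Pool.Agent.WAP.H89

theorem lay : Pool.Agent.WAP.C.LayStmt := by
  intro F _ _ d h2 hd P hP
  rcases P with _ | ⟨X, Y, h⟩
  · exact absurd rfl hP
  · have hL := lmf F d h2 hd X Y h
    have hι : (ii F) ^ 2 = -1 := ii_sq
    have hι0 : ii F ≠ 0 := by
      intro h0
      rw [h0] at hι
      have h3 : (0 : F) = -1 := by rw [← hι]; ring
      have h4 : (1 : F) = 0 := by linear_combination h3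
      exact one_ne_zero h4
    refine ⟨fun h0 => hL.1 h0, fun h0 => ?_⟩
    have h0' : X ≠ 0 := h0
    obtain ⟨Y', h', he⟩ := hL.2 h0'
    rw [he]
    refine And.intro ?_ ?_
    · intro h3
      exact WeierstrassCurve.Affine.Point.some_ne_zero _ h3
    show (X ^ 2 - d ^ 2) / (2 * ii F * X) * (2 * ii F * X) = X ^ 2 - d ^ 2
    exact div_mul_cancel₀ _ (mul_ne_zero (mul_ne_zero h2 hι0) h0')

end Pool.Agent.WAP.H89
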